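import Pool.Agent.Helper94.HO.P10
import Pool.Agent.Helper96.HO.P11

/-!
# Project HO (MP_19c155_gt), piece HO-12: the kernel depends only on the Jacobian and `‖D y‖`
-/

open MeasureTheory Set Metric Filter Module
open scoped NNReal Topology RealInnerProductSpace ENNReal Real ContDiff Manifold

namespace Pool.Agent.Helper19.HO

variable {E H ι : Type*} [NormedAddCommGroup E] [InnerProductSpace ℝ E] [NormedAddCommGroup H]
  [InnerProductSpace ℝ H] [Fintype ι] [FiniteDimensional ℝ E] [FiniteDimensional ℝ H]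
  [MeasurableSpace E] [BorelSpace E]

omit [FiniteDimensional ℝ E] [FiniteDimensional ℝ H] [MeasurableSpace E] [BorelSpace E] in
theorem ker_comp_h78 (b : OrthonormalBasis ι ℝ H) (p : PiLp 2 (fun _ : ι => E))
    (Q : E →L[ℝ] H) (S : E →L[ℝ] E) (y : E) :
    ker b p (Q ∘L S) y = ENNReal.ofReal |S.det| * ker b p Q (S y) := by
  have hdet : (act b p ∘L (Q ∘L S)).det = (act b p ∘L Q).det * S.det :=
    LinearMap.det_comp (M := E) ((act b p ∘L Q : E →L[ℝ] E) : E →ₗ[ℝ] E) (S : E →ₗ[ℝ] E)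
  unfold ker
  rw [hdet, abs_mul]
  by_cases h : ‖(act b p) (Q (S y))‖ < 1
  · have h' : ‖(act b p) ((Q ∘L S) y)‖ < 1 := h
    rw [if_pos h', if_pos h, mul_comm |(act b p ∘L Q).det|, ENNReal.ofReal_mul (abs_nonneg _)]
  · have h' : ¬ ‖(act b p) ((Q ∘L S) y)‖ < 1 := h
    rw [if_neg h', if_neg h, mul_zero]

omit [FiniteDimensional ℝ H] in
theorem Psi_comp_right_h78 (b : OrthonormalBasis ι ℝ H) (Q : E →L[ℝ] H) (S : E →L[ℝ] E) (y : E) :
    Psi b (Q ∘L S) y = ENNReal.ofReal |S.det| * Psi b Q (S y) := by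
  unfold Psi
  rw [← lintegral_const_mul' _ _ ENNReal.ofReal_ne_top]
  refine lintegral_congr fun p => ?_
  rw [ker_comp_h78]
  ring

omit [MeasurableSpace E] [BorelSpace E] in
theorem exists_rot_h78 (w z : E) (h : ‖w‖ = ‖z‖) :
    ∃ O : E ≃ₗᵢ[ℝ] E, O w = z ∧ |((O : E ≃L[ℝ] E) : E →L[ℝ] E).det| = 1 := by
  refine ⟨Submodule.reflection (ℝ ∙ (w - z))ᗮ, Submodule.reflection_sub h, ?_⟩
  have h1 := Submodule.det_reflection (𝕜 := ℝ) (ℝ ∙ (w - z))ᗮ
  have h2 : (((Submodule.reflection (ℝ ∙ (w - z))ᗮ : E ≃ₗᵢ[ℝ] E) : E ≃L[ℝ] E) : E →L[ℝ] E).det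
      = (-1) ^ finrank ℝ ((ℝ ∙ (w - z))ᗮᗮ : Submodule ℝ E) := h1
  rw [h2, abs_pow, abs_neg, abs_one, one_pow]

theorem Psi_isometry_h78 (b : OrthonormalBasis ι ℝ H)
    (hcl : ∀ (U : H ≃ₗᵢ[ℝ] H) (D : E →L[ℝ] H) (y : E),
      Psi b ((U : H →L[ℝ] H) ∘L D) y = Psi b D y) (Q Q₀ : E →ₗᵢ[ℝ] H) (z : E) :
    Psi b Q.toContinuousLinearMap z = Psi b Q₀.toContinuousLinearMap z := by
  obtain ⟨U, hU⟩ := exists_extend Q Q₀
  have h : Q.toContinuousLinearMap = (U : H →L[ℝ] H) ∘L Q₀.toContinuousLinearMap := by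
    ext x
    exact (hU x).symm
  rw [h]
  exact hcl U Q₀.toContinuousLinearMap z

/-- `Psi_eq` with HO-10 (`Psi_comp_left`) as a hypothesis. -/
theorem Psi_eq_of_comp_left_h78 (b : OrthonormalBasis ι ℝ H)
    (hcl : ∀ (U : H ≃ₗᵢ[ℝ] H) (D : E →L[ℝ] H) (y : E),
      Psi b ((U : H →L[ℝ] H) ∘L D) y = Psi b D y)
    (Q₀ : E →ₗᵢ[ℝ] H) (D : E →L[ℝ] H) (y w : E)
    (hw : ‖w‖ = ‖D y‖) :
    Psi b D y = ENNReal.ofReal (Jac D) * Psi b Q₀.toContinuousLinearMap w := by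
  by_cases hD : Function.Injective D
  · obtain ⟨Q, S, hQS, hJ⟩ := exists_polar D hD
    have hn : ‖w‖ = ‖S y‖ := by
      rw [hw, hQS]
      exact Q.norm_map (S y)
    obtain ⟨O, hO, hdet⟩ := exists_rot_h78 w (S y) hn
    have h1 : Psi b D y = ENNReal.ofReal (Jac D) * Psi b Q.toContinuousLinearMap (S y) := by
      rw [hJ, ← Psi_comp_right_h78, ← hQS]
    have h2 : Psi b Q₀.toContinuousLinearMap (S y)
        = Psi b (Q₀.comp O.toLinearIsometry).toContinuousLinearMap w := by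
      have h3 := Psi_comp_right_h78 b Q₀.toContinuousLinearMap ((O : E ≃L[ℝ] E) : E →L[ℝ] E) w
      rw [hdet, ENNReal.ofReal_one, one_mul] at h3
      have h4 : ((O : E ≃L[ℝ] E) : E →L[ℝ] E) w = S y := hO
      rw [h4] at h3
      rw [← h3]
      rfl
    rw [h1, Psi_isometry_h78 b hcl Q Q₀ (S y), h2,
      Psi_isometry_h78 b hcl (Q₀.comp O.toLinearIsometry) Q₀ w]
  · rw [Jac_of_not_injective D hD, ENNReal.ofReal_zero, zero_mul]
    have hker : ∀ p : PiLp 2 (fun _ : ι => E), ker b p D y = 0 := by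
      intro p
      have hdet : (act b p ∘L D).det = 0 := by
        by_contra hne
        apply hD
        have hu : IsUnit (LinearMap.det ((act b p ∘L D : E →L[ℝ] E) : E →ₗ[ℝ] E)) :=
          isUnit_iff_ne_zero.2 hne
        have hinj : Function.Injective (act b p ∘L D : E →L[ℝ] E) :=
          ((Module.End.isUnit_iff _).1 ((LinearMap.isUnit_iff_isUnit_det _).2 hu)).1
        intro x x' hxx
        apply hinj
        simp [hxx]
      unfold ker
      rw [hdet, abs_zero, ENNReal.ofReal_zero, ite_self]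
    unfold Psi
    simp only [hker, mul_zero, lintegral_zero]

theorem Psi_eq (b : OrthonormalBasis ι ℝ H) (Q₀ : E →ₗᵢ[ℝ] H) (D : E →L[ℝ] H) (y w : E)
    (hw : ‖w‖ = ‖D y‖) :
    Psi b D y = ENNReal.ofReal (Jac D) * Psi b Q₀.toContinuousLinearMap w :=
  Psi_eq_of_comp_left_h78 b (fun U D' y' => Psi_comp_left b U D' y') Q₀ D y w hw

end Pool.Agent.Helper19.HO
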